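import Pool.Agent.V5helper4.CM.CST4
import Pool.Agent.V5helper7.CM.CST2

/-!
# Project CM, jobs GEN and DIFF (helper3): basic invariants and their differentials
-/

namespace Pool.Agent.V5helper3.CM

open MvPolynomial Pool.Agent.V5helper32.CM

variable {n : ℕ} {W : Type} [Group W] [Fintype W] {D : Rd n W}

/-- Evaluation at zero of a homogeneous polynomial of positive degree. -/
theorem eval_zero_of_hom {h : MvPolynomial (Fin n) ℂ} {e : ℕ} (he : 0 < e)
    (hh : h.IsHomogeneous e) : eval 0 h = 0 := by
  have h1 : constantCoeff h = 0 := by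
    rw [constantCoeff_eq]
    apply hh.coeff_eq_zero
    rw [map_zero]
    omega
  rw [← h1, ← eval_zero]

theorem eval_zero_of_span (C : Cdat D) {h : MvPolynomial (Fin n) ℂ}
    (hh : h ∈ Ideal.span (Set.range C.f)) : eval 0 h = 0 := by
  have : Ideal.span (Set.range C.f) ≤ RingHom.ker (eval (0 : Fin n → ℂ)) := by
    rw [Ideal.span_le]
    rintro _ ⟨i, rfl⟩
    exact eval_zero_of_hom (C.dpos i) (C.hom i)
  exact this hh

theorem N_pos (C : Cdat D) : 0 < C.N := by
  rcases Nat.eq_zero_or_pos C.N with h0 | h0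
  · exfalso
    obtain ⟨q, hq, -⟩ := C.free 1
    have : (∑ j, aeval C.f (q j) * C.c j) = 0 := by
      apply Finset.sum_eq_zero
      intro j _
      exact absurd j.2 (by omega)
    simp only [this] at hq
    exact one_ne_zero hq
  · exact h0

theorem ind (C : Cdat D) : AlgebraicIndependent ℂ C.f := by
  classical
  rw [algebraicIndependent_iff]
  intro P hP
  let j₀ : Fin C.N := ⟨0, N_pos C⟩
  have h1 := (C.free 0).unique (y₁ := Function.update 0 j₀ P) (y₂ := 0) ?_ ?_
  · have h2 := congrFun h1 j₀
    rwa [Function.update_self] at h2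
  · symm
    apply Finset.sum_eq_zero
    intro j _
    by_cases hj : j = j₀
    · rw [hj, Function.update_self, hP, zero_mul]
    · rw [Function.update_of_ne hj, Pi.zero_apply, map_zero, zero_mul]
  · symm
    apply Finset.sum_eq_zero
    intro j _
    rw [Pi.zero_apply, map_zero, zero_mul]

theorem Psi_const (C : Cdat D) {h : MvPolynomial (Fin n) ℂ} (hh : IsInv D h) (u : W) :
    C.Ψ h u = C.Ψ h 1 := by
  have := C.Ψw u h u
  rwa [hh u, inv_mul_cancel] at this

theorem hilb_eq (C : Cdat D) : Ideal.span (Set.range C.f) = hilb D := by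
  apply le_antisymm
  · rw [Ideal.span_le]
    rintro _ ⟨i, rfl⟩
    exact Ideal.subset_span ⟨C.inv i, C.d i, C.dpos i, C.hom i⟩
  · unfold hilb
    rw [Ideal.span_le]
    rintro h ⟨hi, e, he, hom⟩
    have h1 : IsInv D (1 : MvPolynomial (Fin n) ℂ) := by
      intro w
      rw [map_one]
    have h2 : C.Ψ 1 1 ≠ 0 := by
      intro h0
      have h3 : C.Ψ 1 = 0 := by
        funext u
        rw [Psi_const C h1 u, h0]
        rfl
      have h4 := eval_zero_of_span C ((C.ker 1).1 h3)
      rw [map_one] at h4
      exact one_ne_zero h4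
    set b := C.Ψ h 1 / C.Ψ 1 1 with hb
    have h3 : C.Ψ (h - b • 1) = 0 := by
      funext u
      rw [map_sub, map_smul, Pi.sub_apply, Pi.smul_apply, Psi_const C hi u, Psi_const C h1 u, hb,
        smul_eq_mul, div_mul_cancel₀ _ h2, sub_self]
      rfl
    have h4 := (C.ker _).1 h3
    have h5 := eval_zero_of_span C h4
    rw [map_sub, eval_zero_of_hom he hom, smul_eval, map_one, mul_one, zero_sub, neg_eq_zero] at h5
    rw [h5, zero_smul, sub_zero] at h4
    exact h4

theorem gen (C : Cdat D) (h : MvPolynomial (Fin n) ℂ) (hh : IsInv D h) :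
    ∃ q : MvPolynomial (Fin n) ℂ, h = aeval C.f q :=
  Pool.Agent.V5helper7.CM.gen_inv D C.f C.d C.dpos
    (fun i => (Pool.Agent.V5helper7.CM.HZ_iff _ _).2 (C.hom i)) C.inv (hilb_eq C) h hh

/-! ## Differentials -/

/-- The orbit of the regular vector. -/
noncomputable def pt (D : Rd n W) (u : W) : Fin n → ℂ := (D.ρ u).val.mulVec D.v

theorem pt_one (D : Rd n W) : pt D 1 = D.v := by
  unfold pt
  rw [map_one, Units.val_one, Matrix.one_mulVec]

theorem pt_inj (D : Rd n W) : Function.Injective (pt D) := fun _ _ h =>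
  Pool.Agent.V5helper4.CM.orbit_inj D h

theorem eval_f (C : Cdat D) (u : W) (q : MvPolynomial (Fin n) ℂ) :
    eval (pt D u) (aeval C.f q) = eval (fun i => eval D.v (C.f i)) q := by
  have h1 : (aeval (pt D u) : MvPolynomial (Fin n) ℂ →ₐ[ℂ] ℂ).comp (aeval C.f) =
      aeval (fun i => eval D.v (C.f i)) := by
    apply MvPolynomial.algHom_ext
    intro i
    rw [AlgHom.comp_apply, aeval_X, aeval_X, aeval_eq_eval]
    exact Pool.Agent.V5helper4.CM.eval_inv (C.inv i) u D.v
  have := DFunLike.congr_fun h1 q
  simpa [MvPolynomial.aeval_eq_eval] using this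

/-- The coinvariants at the orbit. -/
noncomputable def T (C : Cdat D) : (Fin C.N → ℂ) →ₗ[ℂ] (W → ℂ) where
  toFun s u := ∑ j, s j * eval (pt D u) (C.c j)
  map_add' := by
    intro a b
    funext u
    simp [add_mul, Finset.sum_add_distrib]
  map_smul' := by
    intro a b
    funext u
    simp [mul_assoc, Finset.mul_sum]

theorem T_apply (C : Cdat D) (s : Fin C.N → ℂ) (u : W) :
    T C s u = ∑ j, s j * eval (pt D u) (C.c j) := rfl

theorem eval_sum (C : Cdat D) (q : Fin C.N → MvPolynomial (Fin n) ℂ) (u : W) :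
    eval (pt D u) (∑ j, aeval C.f (q j) * C.c j) =
      T C (fun j => eval (fun i => eval D.v (C.f i)) (q j)) u := by
  rw [T_apply, map_sum]
  apply Finset.sum_congr rfl
  intro j _
  rw [map_mul, eval_f]

theorem T_surj (C : Cdat D) : Function.Surjective (T C) := by
  intro φ
  obtain ⟨h, hh⟩ := Pool.Agent.V5helper4.CM.interp (pt D) (pt_inj D) φ
  obtain ⟨q, hq, -⟩ := C.free h
  refine ⟨fun j => eval (fun i => eval D.v (C.f i)) (q j), ?_⟩
  funext u
  rw [← eval_sum, ← hh u]
  exact congrArg _ hq.symm

theorem N_le (C : Cdat D) : C.N ≤ Fintype.card W := by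
  classical
  let S : (Fin C.N → ℂ) →ₗ[ℂ] (W → ℂ) := C.Ψ ∘ₗ (Fintype.linearCombination ℂ C.c)
  have hS : Function.Injective S := by
    rw [injective_iff_map_eq_zero]
    intro s hs
    have h1 : (∑ j, s j • C.c j) ∈ Ideal.span (Set.range C.f) := by
      rw [← C.ker]
      rw [← Fintype.linearCombination_apply]
      exact hs
    obtain ⟨g, hg⟩ := (Ideal.mem_span_range_iff_exists_fun).1 h1
    choose q hq using fun i => (C.free (g i)).exists
    have h2 := (C.free (∑ j, s j • C.c j)).unique
      (y₁ := fun j => MvPolynomial.C (s j)) (y₂ := fun j => ∑ i, q i j * X i) ?_ ?_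
    · funext j
      have h3 := congrArg constantCoeff (congrFun h2 j)
      rw [constantCoeff_C, map_sum] at h3
      rw [h3]
      apply Finset.sum_eq_zero
      intro i _
      rw [map_mul, constantCoeff_X, mul_zero]
    · apply Finset.sum_congr rfl
      intro j _
      rw [smul_eq_C_mul]
      congr 1
      exact (aeval_C C.f (s j)).symm
    · show (∑ j, s j • C.c j) = ∑ j, aeval C.f (∑ i, q i j * X i) * C.c j
      rw [← hg]
      conv_lhs =>
        arg 2
        ext i
        rw [hq i, Finset.sum_mul]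
      rw [Finset.sum_comm]
      apply Finset.sum_congr rfl
      intro j _
      rw [map_sum, Finset.sum_mul]
      apply Finset.sum_congr rfl
      intro i _
      rw [map_mul, aeval_X]
      ring
  have := LinearMap.finrank_le_finrank_of_injective hS
  simpa using this

theorem T_inj (C : Cdat D) : Function.Injective (T C) := by
  have h1 : C.N = Fintype.card W := by
    apply le_antisymm (N_le C)
    have := LinearMap.finrank_le_finrank_of_surjective (T_surj C)
    simpa using this
  have h2 : Module.finrank ℂ (Fin C.N → ℂ) = Module.finrank ℂ (W → ℂ) := by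
    simp [h1]
  exact (LinearMap.injective_iff_surjective_of_finrank_eq_finrank h2).2 (T_surj C)

/-- A polynomial minus its value at `a` is in the ideal of `a`. -/
theorem sub_eval_mem (a : Fin n → ℂ) (q : MvPolynomial (Fin n) ℂ) :
    q - MvPolynomial.C (eval a q) ∈
      Ideal.span (Set.range fun i => (X i - MvPolynomial.C (a i) : MvPolynomial (Fin n) ℂ)) := by
  induction q using MvPolynomial.induction_on with
  | C c =>
    rw [eval_C, sub_self]
    exact Ideal.zero_mem _
  | add p q hp hq =>
    have : p + q - MvPolynomial.C (eval a (p + q)) =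
        (p - MvPolynomial.C (eval a p)) + (q - MvPolynomial.C (eval a q)) := by
      rw [map_add, map_add]
      ring
    rw [this]
    exact Ideal.add_mem _ hp hq
  | mul_X p i hp =>
    have : p * X i - MvPolynomial.C (eval a (p * X i)) =
        X i * (p - MvPolynomial.C (eval a p)) +
          MvPolynomial.C (eval a p) * (X i - MvPolynomial.C (a i)) := by
      rw [map_mul, map_mul, eval_X]
      ring
    rw [this]
    exact Ideal.add_mem _ (Ideal.mul_mem_left _ _ hp)
      (Ideal.mul_mem_left _ _ (Ideal.subset_span ⟨i, rfl⟩))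

/-- A polynomial which vanishes on the orbit. -/
theorem vanish (C : Cdat D) (h : MvPolynomial (Fin n) ℂ) (hh : ∀ u, eval (pt D u) h = 0) :
    ∃ g : Fin n → MvPolynomial (Fin n) ℂ,
      h = ∑ i, g i * (C.f i - MvPolynomial.C (eval D.v (C.f i))) := by
  obtain ⟨q, hq, -⟩ := C.free h
  have h1 : (fun j => eval (fun i => eval D.v (C.f i)) (q j)) = 0 := by
    apply T_inj C
    funext u
    rw [← eval_sum, ← hq, hh u, map_zero]
    rfl
  have h2 : h ∈ Ideal.span (Set.range fun i =>
      (C.f i - MvPolynomial.C (eval D.v (C.f i)) : MvPolynomial (Fin n) ℂ)) := by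
    rw [hq]
    apply Ideal.sum_mem
    intro j _
    apply Ideal.mul_mem_right
    have h3 := sub_eval_mem (fun i => eval D.v (C.f i)) (q j)
    have h4 : eval (fun i => eval D.v (C.f i)) (q j) = 0 := congrFun h1 j
    rw [h4, map_zero, sub_zero] at h3
    have h5 : Ideal.span (Set.range fun i =>
        (X i - MvPolynomial.C (eval D.v (C.f i)) : MvPolynomial (Fin n) ℂ)) ≤
        (Ideal.span (Set.range fun i =>
          (C.f i - MvPolynomial.C (eval D.v (C.f i)) : MvPolynomial (Fin n) ℂ))).comap
          (aeval C.f).toRingHom := by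
      rw [Ideal.span_le]
      rintro _ ⟨i, rfl⟩
      apply Ideal.subset_span
      refine ⟨i, ?_⟩
      show (C.f i - MvPolynomial.C (eval D.v (C.f i)) : MvPolynomial (Fin n) ℂ) =
        aeval (R := ℂ) C.f (X i - MvPolynomial.C (eval D.v (C.f i)))
      rw [map_sub, aeval_X]
      congr 1
      exact (aeval_C C.f _).symm
    exact h5 h3
  obtain ⟨g, hg⟩ := (Ideal.mem_span_range_iff_exists_fun).1 h2
  exact ⟨g, hg.symm⟩

theorem det_ne (C : Cdat D) (M : Matrix (Fin n) (Fin n) ℂ)
    (hM : ∀ i j, M i j = eval D.v (pderiv j (C.f i))) : M.det ≠ 0 := by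
  classical
  obtain ⟨e, he⟩ := Pool.Agent.V5helper4.CM.interp (pt D) (pt_inj D)
    (fun u => if u = 1 then (1 : ℂ) else 0)
  have he1 : eval D.v e = 1 := by
    have := he 1
    rwa [if_pos rfl, pt_one] at this
  have h1 : ∀ j, ∃ g : Fin n → MvPolynomial (Fin n) ℂ,
      e * (X j - MvPolynomial.C (D.v j)) =
        ∑ i, g i * (C.f i - MvPolynomial.C (eval D.v (C.f i))) := by
    intro j
    apply vanish C
    intro u
    rw [map_mul, he u]
    by_cases hu : u = 1
    · rw [hu, pt_one, map_sub, eval_X, eval_C, sub_self, mul_zero]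
    · rw [if_neg hu, zero_mul]
  choose g hg using h1
  have h2 : (Matrix.of fun j i => eval D.v (g j i)) * M = 1 := by
    ext j l
    rw [Matrix.mul_apply]
    have h3 := congrArg (fun x => eval D.v (pderiv l x)) (hg j)
    simp only [map_sum, pderiv_mul, map_sub, pderiv_C, sub_zero, map_add, map_mul, pderiv_X,
      eval_X, eval_C, sub_self, mul_zero, zero_add, he1, one_mul] at h3
    rw [Matrix.one_apply]
    rw [Finset.sum_congr rfl fun i _ => by rw [hM i l, Matrix.of_apply], ← h3]
    by_cases hjl : j = l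
    · subst hjl
      rw [Pi.single_eq_same, if_pos rfl, map_one]
    · rw [if_neg hjl, Pi.single_eq_of_ne hjl, map_zero]
  exact Matrix.det_ne_zero_of_left_inverse h2

theorem intertwine (C : Cdat D) (M : Matrix (Fin n) (Fin n) ℂ)
    (hM : ∀ i j, M i j = eval D.v (pderiv j (C.f i))) :
    M * (D.t⁻¹).val = Matrix.diagonal C.ζ * M := by
  classical
  have hv : (D.t⁻¹).val.mulVec D.v = D.v := by
    conv_lhs => rw [← D.tv]
    rw [Matrix.mulVec_mulVec, ← Units.val_mul, inv_mul_cancel, Units.val_one, Matrix.one_mulVec]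
  ext i j
  rw [Matrix.mul_apply, Matrix.diagonal_mul, hM i j]
  have h1 : eval D.v (pderiv j (act D.t (C.f i))) = C.ζ i * eval D.v (pderiv j (C.f i)) := by
    rw [C.eig i, Derivation.map_smul, smul_eval]
  rw [← h1]
  have h2 : act D.t (C.f i) =
      aeval (fun i => ∑ j, MvPolynomial.C ((D.t⁻¹).val i j) * X j) (C.f i) := rfl
  rw [h2, Pool.Agent.V5helper7.CM.pderiv_aeval, map_sum]
  apply Finset.sum_congr rfl
  intro l _
  rw [map_mul]
  have h3 : eval D.v (aeval (fun i => ∑ j, MvPolynomial.C ((D.t⁻¹).val i j) * X j)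
      (pderiv l (C.f i))) = M i l := by
    have h4 := Pool.Agent.V5helper4.CM.eval_act D.t D.v (pderiv l (C.f i))
    rw [hv] at h4
    rw [hM i l, ← h4]
    rfl
  rw [h3]
  congr 1
  rw [map_sum, map_sum, Finset.sum_eq_single j]
  · rw [pderiv_mul, pderiv_C, zero_mul, zero_add, pderiv_X_self, mul_one, eval_C]
  · intro l' _ hl
    rw [pderiv_mul, pderiv_C, zero_mul, zero_add, pderiv_X_of_ne hl, mul_zero, map_zero]
  · intro h
    exact absurd (Finset.mem_univ j) h

end Pool.Agent.V5helper3.CM
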