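import Pool.Agent.V5helper32.CM.Stm5
import Pool.Agent.V5helper3.CM.GENc

/-!
# Project CM, jobs GEN and DIFF (helper3)
-/

namespace Pool.Agent.V5helper3.CM

open Pool.Agent.V5helper32.CM

theorem t_GEN : S_GEN := fun _ _ _ _ _ C => ⟨ind C, gen C⟩

theorem t_DIFF : S_DIFF := fun _ _ _ _ _ C M hM => ⟨det_ne C M hM, intertwine C M hM⟩

end Pool.Agent.V5helper3.CM
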